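import Mathlib
import Pool.Agent.Work.MP_8efaaa_nt.Z6.DXr
import Pool.Agent.Work.MP_8efaaa_nt.K6.CCx

/-!
# R3/Dat: the data with its complex embedding
-/

set_option autoImplicit false

universe u

namespace Pool.Agent.Work.MP_8efaaa_nt.R3

open NumberField Pool.Agent.Work.CM Pool.Agent.Work.MP_8efaaa_nt.R
  Pool.Agent.Work.MP_8efaaa_nt.N5 Pool.Agent.Work.MP_8efaaa_nt.K6 Pool.Agent.Work.MP_8efaaa_nt.W6

theorem exists_ur6 {K : Type u} [Field K] [NumberField K] {a : ℕ} {s : K} (hb : B6 K a s)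
    {S : 𝓞 K} (hS : algebraMap (𝓞 K) K S = s) {τ : 𝓞 K ≃+* 𝓞 K} (hτ : τ S = -S) :
    ∃ (F : Type) (_ : Field F) (_ : NumberField F) (_ : Algebra K F)
      (_ : FiniteDimensional K F) (_ : IsGalois K F) (_ : IsGalois ℚ F) (ζ : F) (w : ℕ → F)
      (z k v : Ideal (𝓞 K) → F) (κ : F ≃ₐ[ℚ] F) (ι : F →+* ℂ),
      UD6 K F a s S τ ζ w z k v κ ∧
      (∀ x, ι (κ x) = (starRingEnd ℂ) (ι x)) ∧
      ∀ d, d ∣ a → (d % 8 = 1 ∨ d % 8 = 7) →
        ∃ r : ℝ, 0 < r ∧ ι (z (r6 S d)) = (r : ℂ) := by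
  obtain ⟨φ⟩ : Nonempty (K →+* ℂ) := inferInstance
  let _ : Algebra K ℂ := φ.toAlgebra
  obtain ⟨F, hF1, hF2, hF3, ζ, w, z, k, v, h0⟩ := exists_c6 hb
  have hNF : NumberField F := NumberField.of_module_finite K F
  have hF4 : @IsGalois ℚ _ F _ DivisionRing.toRatAlgebra := by
    have hsub : Subsingleton (Algebra ℚ F) := inferInstance
    exact (hsub.elim _ _ : _ = (DivisionRing.toRatAlgebra : Algebra ℚ F)) ▸ hF3
  obtain ⟨κ, hκ⟩ := exists_conj (F := F)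
  refine ⟨F, inferInstance, hNF, inferInstance, hF1, hF2, hF4, ζ, w, z, k, v, κ,
    algebraMap F ℂ, ud6_conj hb hS hτ h0 hκ, hκ, fun d hd hd8 => ?_⟩
  obtain ⟨r, hr, hz⟩ := Z6.zc_pos hb hS hd hd8
  refine ⟨r, hr, ?_⟩
  rw [h0.hz _ ?_, hz]
  unfold OddI
  rw [norm_r6 hb hS hd]
  exact Nat.odd_iff.2 (by omega)

end Pool.Agent.Work.MP_8efaaa_nt.R3
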