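import Mathlib
import Pool.Agent.Work.MP_8efaaa_nt.V6.Defs
import Pool.Agent.Work.MP_8efaaa_nt.V6.GSu
import Pool.Agent.Work.MP_8efaaa_nt.W14.CEq
import Pool.Agent.Work.MP_8efaaa_nt.K6.ARg

/-!
# R3/SymG: a system of representatives stable under complex conjugation, general case
-/

set_option autoImplicit false

namespace Pool.Agent.Work.MP_8efaaa_nt.R3

open NumberField Pool.Agent.Work.MP_8efaaa_nt.R Pool.Agent.Work.MP_8efaaa_nt.N5
  Pool.Agent.Work.MP_8efaaa_nt.K6 Pool.Agent.Work.MP_8efaaa_nt.W14 Pool.Agent.Work.MP_8efaaa_nt.V6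
open scoped Classical nonZeroDivisors

variable {K F : Type*} [Field K] [NumberField K] [Field F] [NumberField F] {a : ℕ}
  {s : K} {S : 𝓞 K} {τ : 𝓞 K ≃+* 𝓞 K}

private theorem half {J : Type*} [Fintype J] {f : J → J} (hf : ∀ j, f (f j) = j)
    {D : Finset J} (hD : ∀ j, j ∈ D ↔ f j = j) :
    ∃ H : Finset J, (∀ j ∈ H, f j ∉ H) ∧ (∀ j ∈ H, f j ≠ j) ∧
      Disjoint H (H.image f) ∧ Disjoint (H ∪ H.image f) D ∧
      (Finset.univ : Finset J) = (H ∪ H.image f) ∪ D := by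
  let e : J ≃ Fin (Fintype.card J) := Fintype.equivFin J
  let H : Finset J := Finset.univ.filter fun j => e j < e (f j)
  have hmem : ∀ j, j ∈ H ↔ e j < e (f j) := by
    intro j
    simp [H]
  have hH : ∀ j ∈ H, f j ∉ H := by
    intro j hj hj'
    rw [hmem] at hj hj'
    rw [hf] at hj'
    exact lt_asymm hj hj'
  have hne : ∀ j ∈ H, f j ≠ j := by
    intro j hj h
    rw [hmem, h] at hj
    exact lt_irrefl _ hj
  refine ⟨H, hH, hne, ?_, ?_, ?_⟩
  · rw [Finset.disjoint_left]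
    intro j hj hj'
    obtain ⟨k, hk, rfl⟩ := Finset.mem_image.1 hj'
    exact hH k hk hj
  · rw [Finset.disjoint_left]
    intro j hj hj'
    rw [hD] at hj'
    rw [Finset.mem_union, Finset.mem_image] at hj
    rcases hj with hj | ⟨k, hk, rfl⟩
    · exact hne j hj hj'
    · rw [hf] at hj'
      exact hne k hk hj'.symm
  · symm
    rw [Finset.eq_univ_iff_forall]
    intro j
    rw [Finset.mem_union, Finset.mem_union, Finset.mem_image]
    by_cases h0 : f j = j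
    · exact Or.inr ((hD j).2 h0)
    · left
      have h1 : e j ≠ e (f j) := fun h => h0 (e.injective h).symm
      rcases lt_or_gt_of_ne h1 with h2 | h2
      · exact Or.inl ((hmem j).2 h2)
      · refine Or.inr ⟨f j, (hmem _).2 ?_, hf j⟩
        rw [hf]
        exact h2

private theorem hprod {J M : Type*} [Fintype J] [CommMonoid M] {f : J → J} {H D : Finset J}
    (hf : ∀ j, f (f j) = j) (hd : Disjoint H (H.image f)) (hd' : Disjoint (H ∪ H.image f) D)
    (hu : (Finset.univ : Finset J) = (H ∪ H.image f) ∪ D) (g : J → M) :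
    ∏ j, g j = (∏ j ∈ H, (g j * g (f j))) * ∏ j ∈ D, g j := by
  have hinj : Function.Injective f := Function.Involutive.injective hf
  rw [hu, Finset.prod_union hd', Finset.prod_union hd,
    Finset.prod_image (fun x _ y _ h => hinj h), Finset.prod_mul_distrib]

private theorem hsum {J M : Type*} [Fintype J] [AddCommMonoid M] {f : J → J} {H D : Finset J}
    (hf : ∀ j, f (f j) = j) (hd : Disjoint H (H.image f)) (hd' : Disjoint (H ∪ H.image f) D)
    (hu : (Finset.univ : Finset J) = (H ∪ H.image f) ∪ D) (g : J → M) :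
    ∑ j, g j = (∑ j ∈ H, (g j + g (f j))) + ∑ j ∈ D, g j := by
  have hinj : Function.Injective f := Function.Involutive.injective hf
  rw [hu, Finset.sum_union hd', Finset.sum_union hd,
    Finset.sum_image (fun x _ y _ h => hinj h), Finset.sum_add_distrib]

/-- `ρ` gives representatives of the classes of order at most two. -/
theorem exists_symG (hb : B6 K a s) (hS : algebraMap (𝓞 K) K S = s) (hτ : τ S = -S)
    (ha : a % 16 = 6) [Fintype (CG S)] {D : Finset (CG S)} (hD0 : ∀ g, g ∈ D ↔ g * g = 1)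
    {ρ : CG S → M1 K} (hρ : ∀ g ∈ D, clN S (ρ g) = g) :
    ∃ (r : CG S → M1 K) (m : ℕ), (∀ g, clN S (r g) = g) ∧ m % 8 = 1 ∧
      ((∏ g, r g : M1 K) : Ideal (𝓞 K)) = Ideal.span {(m : 𝓞 K)} *
        ((∏ g ∈ D, ρ g : M1 K) : Ideal (𝓞 K)) ∧
      ∀ (z k v : Ideal (𝓞 K) → F) (B : AddSubgroup (cQ F).Point),
        (∀ g ∈ D, PP z k v (ρ g : Ideal (𝓞 K)) ∈ B) →
        (∀ c ∈ M1 K, PP z k v c + PP z k v (cj τ c) ∈ B) →
        ∑ g, PP z k v (r g : Ideal (𝓞 K)) ∈ B := by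
  have hf : ∀ g : CG S, (g⁻¹)⁻¹ = g := fun g => inv_inv g
  have hfix : ∀ g : CG S, g⁻¹ = g ↔ g * g = 1 := by
    intro g
    rw [inv_eq_iff_mul_eq_one]
  have hD : ∀ g, g ∈ D ↔ g⁻¹ = g := by
    intro g
    rw [hfix, hD0]
  obtain ⟨H, hH, hne, hd, hd', hu⟩ := half (f := fun g : CG S => g⁻¹) hf hD
  have hcjm : ∀ c : Ideal (𝓞 K), c ∈ M1 K → cj τ c ∈ M1 K := by
    intro c hc
    show Ideal.absNorm (cj τ c) % 8 = 1
    rw [(norm_cj6 hb hS hτ c).1]
    exact M1.nrm hc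
  have hinv : ∀ c : M1 K, clN S ⟨cj τ (c : Ideal (𝓞 K)), hcjm _ c.2⟩ = (clN S c)⁻¹ := by
    intro c
    show QuotientGroup.mk (cls (cj τ (c : Ideal (𝓞 K)))) =
      (QuotientGroup.mk (cls (c : Ideal (𝓞 K))))⁻¹
    rw [(cls_cj hb hS hτ (M1.ne c.2)).2]
    rfl
  obtain ⟨c, hc⟩ := (clN_surj hb hS ha).hasRightInverse
  set r : CG S → M1 K := fun g => if g * g = 1 then ρ g else
    if g ∈ H then c g else ⟨cj τ (c g⁻¹ : Ideal (𝓞 K)), hcjm _ (c g⁻¹).2⟩ with hr
  have hrD : ∀ g, g * g = 1 → r g = ρ g := by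
    intro g hg
    rw [hr]
    exact if_pos hg
  have hHD : ∀ g ∈ H, ¬ g * g = 1 := fun g hg h => hne g hg ((hfix g).2 h)
  have hrH : ∀ g ∈ H, r g = c g := by
    intro g hg
    rw [hr]
    show (if g * g = 1 then ρ g else _) = c g
    rw [if_neg (hHD g hg), if_pos hg]
  have hrN : ∀ g : CG S, ¬ g * g = 1 → g ∉ H →
      r g = ⟨cj τ (c g⁻¹ : Ideal (𝓞 K)), hcjm _ (c g⁻¹).2⟩ := by
    intro g h1 h3
    rw [hr]
    show (if g * g = 1 then ρ g else _) = _
    rw [if_neg h1, if_neg h3]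
  have hrH' : ∀ g ∈ H, r g⁻¹ = ⟨cj τ (c g : Ideal (𝓞 K)), hcjm _ (c g).2⟩ := by
    intro g hg
    have e1 : ¬ g⁻¹ * g⁻¹ = 1 := by
      intro h
      apply hHD g hg
      rw [← mul_inv, inv_eq_one] at h
      exact h
    rw [hrN g⁻¹ e1 (hH g hg)]
    have h2 : ∀ x y : CG S, x = y → (⟨cj τ (c x : Ideal (𝓞 K)), hcjm _ (c x).2⟩ : M1 K) =
        ⟨cj τ (c y : Ideal (𝓞 K)), hcjm _ (c y).2⟩ := by
      rintro x y rfl
      rfl
    exact h2 _ _ (inv_inv g)
  have hcl : ∀ g, clN S (r g) = g := by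
    intro g
    by_cases h1 : g * g = 1
    · rw [hrD g h1]
      exact hρ g ((hD0 g).2 h1)
    · by_cases h3 : g ∈ H
      · rw [hrH g h3]
        exact hc g
      · rw [hrN g h1 h3, hinv, hc g⁻¹, inv_inv]
  refine ⟨r, ∏ g ∈ H, Ideal.absNorm (c g : Ideal (𝓞 K)), hcl, ?_, ?_, ?_⟩
  · refine Finset.prod_induction _ (fun n => n % 8 = 1) ?_ (by norm_num) ?_
    · intro x y hx hy
      rw [Nat.mul_mod, hx, hy]
    · intro g _
      exact M1.nrm (c g).2
  · have h0 : (∏ g, r g : M1 K) = (∏ g ∈ H, (r g * r g⁻¹)) *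
        ∏ g ∈ D, ρ g := by
      rw [hprod hf hd hd' hu r]
      congr 1
      refine Finset.prod_congr rfl fun g hg => ?_
      exact hrD g ((hD0 g).1 hg)
    have h1 : (∏ g ∈ H, (r g * r g⁻¹) : M1 K) = ∏ g ∈ H,
        (c g * ⟨cj τ (c g : Ideal (𝓞 K)), hcjm _ (c g).2⟩) := by
      refine Finset.prod_congr rfl fun g hg => ?_
      rw [hrH g hg, hrH' g hg]
    have h2 : ∀ g ∈ H, ((c g * ⟨cj τ (c g : Ideal (𝓞 K)), hcjm _ (c g).2⟩ : M1 K) :
        Ideal (𝓞 K)) = Ideal.span {((Ideal.absNorm (c g : Ideal (𝓞 K)) : ℕ) : 𝓞 K)} := by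
      intro g _
      show (c g : Ideal (𝓞 K)) * cj τ (c g : Ideal (𝓞 K)) = _
      rw [← (norm_cj6 hb hS hτ (c g : Ideal (𝓞 K))).2.1]
    rw [h0, h1, Submonoid.coe_mul]
    congr 1
    rw [SubmonoidClass.coe_finsetProd, Finset.prod_congr rfl h2,
      Ideal.prod_span_singleton, Nat.cast_prod]
  · intro z k v B hBρ hB
    have h0 : ∑ g, PP z k v (r g : Ideal (𝓞 K)) =
        (∑ g ∈ H, (PP z k v (r g : Ideal (𝓞 K)) + PP z k v (r g⁻¹ : Ideal (𝓞 K)))) +
        ∑ g ∈ D, PP z k v (ρ g : Ideal (𝓞 K)) := by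
      rw [hsum hf hd hd' hu (fun g => PP z k v (r g : Ideal (𝓞 K)))]
      congr 1
      refine Finset.sum_congr rfl fun g hg => ?_
      rw [hrD g ((hD0 g).1 hg)]
    rw [h0]
    refine B.add_mem (B.sum_mem fun g hg => ?_) (B.sum_mem fun g hg => ?_)
    · rw [hrH g hg, hrH' g hg]
      exact hB (c g : Ideal (𝓞 K)) (c g).2
    · exact hBρ g hg

end Pool.Agent.Work.MP_8efaaa_nt.R3
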