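import Mathlib
import Pool.Agent.Work.MP_8efaaa_nt.V6.Defs
import Pool.Agent.Work.MP_8efaaa_nt.V6.GPi
import Pool.Agent.Work.MP_8efaaa_nt.V6.PEx
import Pool.Agent.Work.MP_8efaaa_nt.K6.ARg
import Pool.Agent.Work.MP_8efaaa_nt.Y6.Prd
import Pool.Agent.Work.MP_8efaaa_nt.Z6.Rl
import Pool.Agent.Work.MP_8efaaa_nt.Z6.PRl
import Pool.Agent.Work.MP_8efaaa_nt.R3.Dat
import Pool.Agent.Work.MP_8efaaa_nt.R3.SymG

/-!
# R3/Par: the parity of a quarter of the order of `CG S` by the real place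
-/

set_option autoImplicit false

namespace Pool.Agent.Work.MP_8efaaa_nt.R3

open NumberField Pool.Agent.Work.MP_8efaaa_nt.R Pool.Agent.Work.MP_8efaaa_nt.N5
  Pool.Agent.Work.MP_8efaaa_nt.K6 Pool.Agent.Work.MP_8efaaa_nt.W14 Pool.Agent.Work.MP_8efaaa_nt.V6
open scoped Classical nonZeroDivisors

/-- `X` has exactly four elements of square one. -/
theorem four_card {X : Type*} [CommGroup X] [Finite X] {R P Q : X}
    (h : ∀ x : X, x * x = 1 ↔ x = 1 ∨ x = R ∨ x = P ∨ x = Q) (h1 : R ≠ 1) (h2 : P ≠ 1)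
    (h3 : Q ≠ 1) (h4 : R ≠ P) (h5 : R ≠ Q) (h6 : P ≠ Q) :
    4 ∣ Nat.card X ∧ (∀ x : X, x ^ (Nat.card X / 4) * x ^ (Nat.card X / 4) = 1) ∧
      ((∀ x, x * x ≠ R) → (∀ x, x * x ≠ P) → (∀ x, x * x ≠ Q) → Odd (Nat.card X / 4)) := by
  have hcard : Nat.card X = 4 * Nat.card (powMonoidHom 2 : X →* X).range := by
    have hk : Nat.card (powMonoidHom 2 : X →* X).ker = 4 := by
      have hset : ((powMonoidHom 2 : X →* X).ker : Set X) = {1, R, P, Q} := by
        ext x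
        simp only [SetLike.mem_coe, MonoidHom.mem_ker, powMonoidHom_apply, Set.mem_insert_iff,
          Set.mem_singleton_iff, pow_two]
        exact h x
      have h0 : Nat.card (powMonoidHom 2 : X →* X).ker = Nat.card ({1, R, P, Q} : Set X) := by
        rw [← hset]
        rfl
      rw [h0, Nat.card_coe_set_eq]
      rw [Set.ncard_insert_of_notMem, Set.ncard_insert_of_notMem, Set.ncard_pair h6]
      · simp only [Set.mem_insert_iff, Set.mem_singleton_iff, not_or]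
        exact ⟨h4, h5⟩
      · simp only [Set.mem_insert_iff, Set.mem_singleton_iff, not_or]
        exact ⟨h1.symm, h2.symm, h3.symm⟩
    rw [← Subgroup.card_mul_index (powMonoidHom 2 : X →* X).ker, hk, Subgroup.index_ker]
  refine ⟨⟨_, hcard⟩, ?_, ?_⟩
  · obtain ⟨N, hN⟩ : ∃ N, N = Nat.card (powMonoidHom 2 : X →* X).range := ⟨_, rfl⟩
    have hN4 : Nat.card X / 4 = N := by
      rw [hcard, hN, Nat.mul_div_cancel_left _ (by norm_num)]
    rw [hN4]
    intro x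
    have h9 := pow_card_eq_one' (x := (⟨x ^ 2, ⟨x, rfl⟩⟩ : (powMonoidHom 2 : X →* X).range))
    have h10 := congrArg (fun y : (powMonoidHom 2 : X →* X).range => (y : X)) h9
    rw [← pow_two, ← pow_mul, mul_comm, pow_mul, hN]
    simpa using h10
  · intro hR hP hQ
    have hN4 : Nat.card X / 4 = Nat.card (powMonoidHom 2 : X →* X).range := by
      rw [hcard, Nat.mul_div_cancel_left _ (by norm_num)]
    rw [hN4, ← Nat.not_even_iff_odd, even_iff_two_dvd]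
    intro hev
    have : Fact (Nat.Prime 2) := ⟨Nat.prime_two⟩
    obtain ⟨x, hx⟩ := exists_prime_orderOf_dvd_card' (G := (powMonoidHom 2 : X →* X).range) 2 hev
    have hx1 : (x : X) ≠ 1 := by
      intro h7
      have h8 : x = 1 := Subtype.ext h7
      rw [h8, orderOf_one] at hx
      omega
    have hx2 : (x : X) * (x : X) = 1 := by
      have h7 := pow_orderOf_eq_one x
      rw [hx, pow_two] at h7
      exact congrArg (fun y : (powMonoidHom 2 : X →* X).range => (y : X)) h7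
    obtain ⟨y, hy⟩ := x.2
    rw [powMonoidHom_apply, pow_two] at hy
    rcases (h _).1 hx2 with h7 | h7 | h7 | h7
    · exact hx1 h7
    · exact hR y (hy.trans h7)
    · exact hP y (hy.trans h7)
    · exact hQ y (hy.trans h7)

section

variable {K F : Type*} [Field K] [NumberField K] [Field F] [NumberField F] [Algebra K F] {a : ℕ}
  {s : K} {S : 𝓞 K} {τ : 𝓞 K ≃+* 𝓞 K} {ζ : F} {w : ℕ → F} {z k v : Ideal (𝓞 K) → F}
  {κ : F ≃ₐ[ℚ] F}

private theorem odd_mul {c d : Ideal (𝓞 K)} (hc : OddI c) (hd : OddI d) : OddI (c * d) := by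
  unfold OddI at *
  rw [map_mul]
  exact hc.mul hd

/-- a power whose class has the representative `ρ` of order two -/
theorem pw_G (hb : B6 K a s) (hS : algebraMap (𝓞 K) K S = s) (hτ : τ S = -S)
    (ha : a % 16 = 6) (hU : UD6 K F a s S τ ζ w z k v κ) {d : ℕ} (hd : d ∣ a)
    (hd8 : d % 8 = 1) {ρ u : M1 K} (hρ : (ρ : Ideal (𝓞 K)) = r6 S d) {n : ℕ}
    (hu : clN S u ^ n = clN S ρ) {y : Ideal (𝓞 K)} (hy : OddI y) :
    PP z k v ((u : Ideal (𝓞 K)) ^ (2 * n) * y) = PP z k v y := by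
  have hun : OddI ((u : Ideal (𝓞 K)) ^ n) := M1.odd (u ^ n).2
  have e1 : (u : Ideal (𝓞 K)) ^ (2 * n) * y =
      (u : Ideal (𝓞 K)) ^ n * ((u : Ideal (𝓞 K)) ^ n * y) := by
    rw [two_mul, pow_add, mul_assoc]
  rw [e1]
  obtain ⟨ε, hε, -, hx⟩ := kk_px hb hS hτ ha hU (b := u ^ n) (c := ρ)
    (by rw [map_pow]; exact hu)
  have hx' : ∀ x, OddI x → PP z k v ((u : Ideal (𝓞 K)) ^ n * x) =
      PP z k v ((ρ : Ideal (𝓞 K)) * x) + ε := fun x hox => hx x hox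
  have hro : OddI (ρ : Ideal (𝓞 K)) := M1.odd ρ.2
  rw [hx' _ (odd_mul hun hy)]
  have e2 : (ρ : Ideal (𝓞 K)) * ((u : Ideal (𝓞 K)) ^ n * y) =
      (u : Ideal (𝓞 K)) ^ n * ((ρ : Ideal (𝓞 K)) * y) := by ring
  rw [e2, hx' _ (odd_mul hro hy), add_assoc, hε, add_zero, ← mul_assoc, hρ, r6_sq hb hS hd,
    nat_px hb hS hU (n := d) (by rw [Nat.odd_iff]; omega) hy, if_pos (Or.inl hd8), add_zero]

/-- the parity -/
theorem par6 (hb : B6 K a s) (hS : algebraMap (𝓞 K) K S = s) (hτ : τ S = -S)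
    (ha : a % 16 = 6) (hU : UD6 K F a s S τ ζ w z k v κ) {ι : F →+* ℂ}
    (hι : ∀ x, ι (κ x) = (starRingEnd ℂ) (ι x))
    (hpos : ∀ d, d ∣ a → (d % 8 = 1 ∨ d % 8 = 7) →
        ∃ r : ℝ, 0 < r ∧ ι (z (r6 S d)) = (r : ℂ))
    {T : (cQ F).Point} (hTT : T + T = ez F) [Fintype (CG S)]
    {D : Finset (CG S)} (hD0 : ∀ g, g ∈ D ↔ g * g = 1)
    {ρ : CG S → M1 K} {δ : CG S → ℕ} (hρ : ∀ g ∈ D, clN S (ρ g) = g)
    (hδ : ∀ g ∈ D, (ρ g : Ideal (𝓞 K)) = r6 S (δ g) ∧ δ g ∣ a ∧ δ g % 8 = 1)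
    {j : ℕ} (hj2 : j % 2 = 1)
    (hj : ((∏ g ∈ D, ρ g : M1 K) : Ideal (𝓞 K)) = Ideal.span {(j : 𝓞 K)})
    (h4 : 4 ∣ Fintype.card (CG S)) {u : M1 K} {m : ℕ}
    (hu2 : clN S u ^ (Fintype.card (CG S) / 4) * clN S u ^ (Fintype.card (CG S) / 4) = 1)
    {r : CG S → M1 K} (hr : ∀ g, clN S (r g) = g) (hm : m % 8 = 1)
    (hrP : ((∏ g, r g : M1 K) : Ideal (𝓞 K)) = Ideal.span {(m : 𝓞 K)} *
      (u : Ideal (𝓞 K)) ^ (Fintype.card (CG S) / 2))
    (hrS : ∑ g, PP z k v (r g : Ideal (𝓞 K)) = (Fintype.card (CG S) / 2) • (T + W14.em F)) :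
    (j % 8 = 1 ∨ j % 8 = 7) ↔ Even (Fintype.card (CG S) / 4) := by
  obtain ⟨-, t2, t3, -, -, -⟩ := two_ep (F := F)
  have odd1 : OddI (1 : Ideal (𝓞 K)) := by
    unfold OddI
    rw [map_one]
    exact odd_one
  obtain ⟨B, hB1, hB2, hB3, hB4⟩ := Z6.exists_real hι
  obtain ⟨rs, ms, hrs, hms, hrsP, hrsS⟩ := exists_symG (F := F) hb hS hτ ha hD0 hρ
  have hW := hrsS z k v B (fun g hg => by
      obtain ⟨h1, h2, h3⟩ := hδ g hg
      obtain ⟨x, hx, hz⟩ := hpos (δ g) h2 (Or.inl h3)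
      have hcj := cj_r6 hb hS hτ (δ g)
      rw [← h1] at hz hcj
      exact Z6.pp_real hU hι hB4 (M1.odd (ρ g).2) hcj hx hz) (fun c hc => by
    rw [← Z6.gal_pk hU (M1.odd hc)]
    exact hB2 _)
  have hcmp := Y6.sum_prod hb hS hτ ha hU hrs hr
  obtain ⟨n, hn⟩ : ∃ n, Fintype.card (CG S) / 4 = n := ⟨_, rfl⟩
  have hn2 : Fintype.card (CG S) / 2 = 2 * n := by omega
  rw [hn] at hu2 ⊢
  rw [hn2] at hrP hrS
  -- the power
  have hpw : PP z k v ((u : Ideal (𝓞 K)) ^ (2 * n) * 1) = PP z k v 1 := by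
    have h1 : clN S u ^ n ∈ D := (hD0 _).2 hu2
    obtain ⟨h2, h3, h5⟩ := hδ _ h1
    exact pw_G hb hS hτ ha hU h3 h5 h2 (hρ _ h1).symm odd1
  rw [mul_one] at hpw
  have huo : OddI ((u : Ideal (𝓞 K)) ^ (2 * n)) := M1.odd (u ^ (2 * n)).2
  have hjo : OddI (Ideal.span {(j : 𝓞 K)}) := by
    rw [← hj]
    exact M1.odd (∏ g ∈ D, ρ g : M1 K).2
  have e1 : PP z k v (Ideal.span {(j : 𝓞 K)}) = PP z k v 1 +
      if j % 8 = 1 ∨ j % 8 = 7 then 0 else ez F := by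
    have h1 := nat_px hb hS hU (n := j) (c := 1) (Nat.odd_iff.2 hj2) odd1
    rw [mul_one] at h1
    exact h1
  have e2 : PP z k v (Ideal.span {(ms : 𝓞 K)} * Ideal.span {(j : 𝓞 K)}) =
      PP z k v (Ideal.span {(j : 𝓞 K)}) := by
    rw [nat_px hb hS hU (n := ms) (Nat.odd_iff.2 (by omega)) hjo, if_pos (Or.inl hms), add_zero]
  have e3 : PP z k v (Ideal.span {(m : 𝓞 K)} * (u : Ideal (𝓞 K)) ^ (2 * n)) =
      PP z k v ((u : Ideal (𝓞 K)) ^ (2 * n)) := by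
    rw [nat_px hb hS hU (n := m) (Nat.odd_iff.2 (by omega)) huo, if_pos (Or.inl hm), add_zero]
  rw [hrsP, hj, hrP, e2, e3, e1, hpw, hrS] at hcmp
  have h5 : ∑ g, PP z k v (rs g : Ideal (𝓞 K)) = n • ez F +
      if j % 8 = 1 ∨ j % 8 = 7 then 0 else ez F := by
    have h6 : (2 * n) • (T + W14.em F) = n • ez F := by
      have h2 : (T + W14.em F) + (T + W14.em F) = ez F := by
        have h3 : (T + W14.em F) + (T + W14.em F) = (T + T) + (W14.em F + W14.em F) := by abel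
        rw [h3, hTT, t2, add_zero]
      rw [mul_comm, mul_smul, two_smul, h2]
    rw [h6] at hcmp
    have h7 : ∑ g, PP z k v (rs g : Ideal (𝓞 K)) = n • ez F + (PP z k v 1 +
      (if j % 8 = 1 ∨ j % 8 = 7 then 0 else ez F) - PP z k v 1) := by
      rw [← hcmp]
      abel
    rw [h7]
    abel
  rw [h5] at hW
  have hev : Even n → n • ez F = 0 := by
    rintro ⟨i, rfl⟩
    rw [← two_mul, mul_comm, mul_smul, two_smul, t3, smul_zero]
  have hod : ¬ Even n → n • ez F = ez F := by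
    intro hn
    rw [Nat.not_even_iff_odd] at hn
    obtain ⟨i, rfl⟩ := hn
    rw [add_smul, one_smul, mul_comm, mul_smul, two_smul, t3, smul_zero, zero_add]
  constructor
  · intro hP
    rw [if_pos hP, add_zero] at hW
    by_contra hn
    rw [hod hn] at hW
    exact hB3 hW
  · intro hn
    by_contra hP
    rw [if_neg hP, hev hn, zero_add] at hW
    exact hB3 hW

end

end Pool.Agent.Work.MP_8efaaa_nt.R3
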