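import Mathlib
import Pool.Agent.Work.MP_8efaaa_nt.K6.CDt
import Pool.Agent.Work.MP_8efaaa_nt.K6.DIn
import Pool.Agent.Work.MP_8efaaa_nt.V6.Defs
import Pool.Agent.Work.MP_8efaaa_nt.V6.SIn
import Pool.Agent.Work.MP_8efaaa_nt.W14.DEx
import Pool.Agent.Work.MP_8efaaa_nt.W14.LPt
import Pool.Agent.Work.MP_8efaaa_nt.Y6.Main
import Pool.Agent.Work.MP_8efaaa_nt.R3.Dat
import Pool.Agent.Work.MP_8efaaa_nt.R3.SymG
import Pool.Agent.Work.MP_8efaaa_nt.R3.Grp
import Pool.Agent.Work.MP_8efaaa_nt.R3.Sq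
import Pool.Agent.Work.MP_8efaaa_nt.R3.Par

/-!
# R3/Main: two theorems on `2 p q r`

`main_113`: primes `1, 1, 3 (mod 8)`. `main_333`: primes `3, 3, 3 (mod 8)`.
-/

set_option autoImplicit false

namespace Pool.Agent.Work.MP_8efaaa_nt.R3

open NumberField Pool.Agent.Work.MP_8efaaa_nt.R Pool.Agent.Work.MP_8efaaa_nt.N5
  Pool.Agent.Work.MP_8efaaa_nt.K6 Pool.Agent.Work.MP_8efaaa_nt.W14 Pool.Agent.Work.MP_8efaaa_nt.V6
open scoped Classical nonZeroDivisors

private theorem sqf {r p q : ℕ} (hr : r.Prime) (hp : p.Prime) (hq : q.Prime) (hr2 : r ≠ 2)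
    (hp2 : p ≠ 2) (hq2 : q ≠ 2) (hrp : r ≠ p) (hrq : r ≠ q) (hpq : p ≠ q) :
    Squarefree (2 * r * p * q) := by
  have c1 : Nat.Coprime 2 r := (Nat.coprime_primes Nat.prime_two hr).2 hr2.symm
  have c2 : Nat.Coprime 2 p := (Nat.coprime_primes Nat.prime_two hp).2 hp2.symm
  have c3 : Nat.Coprime 2 q := (Nat.coprime_primes Nat.prime_two hq).2 hq2.symm
  have c4 : Nat.Coprime r p := (Nat.coprime_primes hr hp).2 hrp
  have c5 : Nat.Coprime r q := (Nat.coprime_primes hr hq).2 hrq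
  have c6 : Nat.Coprime p q := (Nat.coprime_primes hp hq).2 hpq
  rw [Nat.squarefree_mul (Nat.Coprime.mul_left (Nat.Coprime.mul_left c3 c5) c6),
    Nat.squarefree_mul (Nat.Coprime.mul_left c2 c4), Nat.squarefree_mul c1]
  exact ⟨⟨⟨Nat.prime_two.squarefree, hr.squarefree⟩, hp.squarefree⟩, hq.squarefree⟩

section

variable {K : Type*} [Field K] [NumberField K] {a : ℕ} {s : K} {S : 𝓞 K} {τ : 𝓞 K ≃+* 𝓞 K}

/-- the system of the representatives of the four classes -/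
theorem exists_rep {G M : Type*} [DecidableEq G] {R P Q e : G} (x1 xR xP xQ : M)
    (h1 : R ≠ e) (h2 : P ≠ e) (h3 : Q ≠ e) (h4 : R ≠ P) (h5 : R ≠ Q) (h6 : P ≠ Q) :
    ∃ f : G → M, f e = x1 ∧ f R = xR ∧ f P = xP ∧ f Q = xQ := by
  refine ⟨fun g => if g = e then x1 else if g = R then xR else if g = P then xP else xQ,
    if_pos rfl, ?_, ?_, ?_⟩
  · show (if R = e then x1 else if R = R then xR else if R = P then xP else xQ) = xR
    rw [if_neg h1, if_pos rfl]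
  · show (if P = e then x1 else if P = R then xR else if P = P then xP else xQ) = xP
    rw [if_neg h2, if_neg h4.symm, if_pos rfl]
  · show (if Q = e then x1 else if Q = R then xR else if Q = P then xP else xQ) = xQ
    rw [if_neg h3, if_neg h5.symm, if_neg h6.symm]

theorem prod_four {G M : Type*} [DecidableEq G] [CommMonoid M] {R P Q e : G} (f : G → M)
    (h1 : R ≠ e) (h2 : P ≠ e) (h3 : Q ≠ e) (h4 : R ≠ P) (h5 : R ≠ Q) (h6 : P ≠ Q) :
    ∏ g ∈ ({e, R, P, Q} : Finset G), f g = f e * (f R * (f P * f Q)) := by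
  rw [Finset.prod_insert, Finset.prod_insert, Finset.prod_insert, Finset.prod_singleton]
  · rw [Finset.mem_singleton]
    exact h6
  · rw [Finset.mem_insert, Finset.mem_singleton, not_or]
    exact ⟨h4, h5⟩
  · rw [Finset.mem_insert, Finset.mem_insert, Finset.mem_singleton, not_or, not_or]
    exact ⟨h1.symm, h2.symm, h3.symm⟩

private theorem r6_one' : r6 S 1 = (1 : Ideal (𝓞 K)) := by
  unfold r6
  rw [Nat.cast_one, Ideal.one_eq_top, Ideal.eq_top_iff_one]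
  exact Ideal.subset_span (Set.mem_insert _ _)

/-- the class of a product of ramified ideals -/
theorem mk_r6_mul (hb : B6 K a s) (hS : algebraMap (𝓞 K) K S = s) {d e : ℕ} (hde : d * e ∣ a) :
    (QuotientGroup.mk (cls (r6 S (d * e))) : CG S) =
      QuotientGroup.mk (cls (r6 S d)) * QuotientGroup.mk (cls (r6 S e)) := by
  rw [r6_mul hb hS hde, cls_mul (r6_ne hb hS (dvd_of_mul_right_dvd hde))
    (r6_ne hb hS (dvd_of_mul_left_dvd hde)), QuotientGroup.mk_mul]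

end

/-- `2 p p' q` is a congruent number for primes `p = p' = 1`, `q = 3 (mod 8)`, if every one of the three is a
nonresidue of one of the others. -/
theorem main_113 {p p' q : ℕ} (hp : p.Prime) (hp' : p'.Prime) (hq : q.Prime) (hp8 : p % 8 = 1)
    (hp8' : p' % 8 = 1) (hq8 : q % 8 = 3) (hpp : p ≠ p')
    (h1 : jacobiSym p p' = -1 ∨ jacobiSym p q = -1)
    (h2 : jacobiSym p' p = -1 ∨ jacobiSym p' q = -1)
    (h3 : jacobiSym q p = -1 ∨ jacobiSym q p' = -1) : IsCongruent (2 * p * p' * q) := by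
  by_contra hnc
  have hp2 : p ≠ 2 := by omega
  have hp2' : p' ≠ 2 := by omega
  have hq2 : q ≠ 2 := by omega
  have hsf := sqf hp hp' hq hp2 hp2' hq2 hpp (by omega) (by omega)
  have hpp8 : (p * p') % 8 = 1 := by rw [Nat.mul_mod, hp8, hp8']
  have ha : (2 * p * p' * q) % 16 = 6 := by
    have e1 : (p * p' * q) % 8 = 3 := by rw [Nat.mul_mod, hpp8, hq8]
    have e2 : 2 * p * p' * q = 2 * (p * p' * q) := by ring
    omega
  have hpa : p ∣ 2 * p * p' * q := ⟨2 * p' * q, by ring⟩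
  have hpa' : p' ∣ 2 * p * p' * q := ⟨2 * p * q, by ring⟩
  have hqa : q ∣ 2 * p * p' * q := dvd_mul_left _ _
  have hppa : p * p' ∣ 2 * p * p' * q := ⟨2 * q, by ring⟩
  have hpq : ¬ p ∣ q := fun h => by
    have := (Nat.prime_dvd_prime_iff_eq hp hq).1 h
    omega
  obtain ⟨K, _, _, s, hb⟩ := exists_base6 hsf (a := 2 * p * p' * q) (by omega)
  obtain ⟨S, hS, -, -⟩ := exists_S6 hb
  obtain ⟨τ, hτ⟩ := exists_tau6 hb hS
  obtain ⟨F, _, _, _, _, _, _, ζ, w, z, k, v, κ, ι, hU, hι, hpos⟩ := exists_ur6 hb hS hτ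
  obtain ⟨T, hTT, hT⟩ := tq_px hb hS hU
  have : Fintype (CG S) := Fintype.ofFinite _
  obtain ⟨R, P, Q, hR, hP, hQ, hR1, hP1, hQ1, hRP, hRQ, hPQ, hRR, hPP, hQQ, mRP, mRQ, mPQ, hG⟩ :=
    exists_grpG hp hp' hq hp2 hp2' hq2 (Or.inl hq8) hb hS hτ
  have n1 := norm_r6 hb hS hpa
  have n2 := norm_r6 hb hS hpa'
  have n3 := norm_r6 hb hS hqa
  have n4 := norm_r6 hb hS hppa
  set ρ1 : M1 K := ⟨r6 S p, by show Ideal.absNorm (r6 S p) % 8 = 1; rw [n1]; exact hp8⟩ with hρ1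
  set ρ2 : M1 K := ⟨r6 S p', by show Ideal.absNorm (r6 S p') % 8 = 1; rw [n2]; exact hp8'⟩
    with hρ2
  set ρ3 : M1 K := ⟨r6 S (p * p'), by
    show Ideal.absNorm (r6 S (p * p')) % 8 = 1; rw [n4]; exact hpp8⟩ with hρ3
  have c1 : clN S ρ1 = R := hR.symm
  have c2 : clN S ρ2 = P := hP.symm
  have c3 : clN S ρ3 = Q := by
    rw [← mRP, hR, hP]
    exact mk_r6_mul hb hS hppa
  obtain ⟨f, f1, fR, fP, fQ⟩ := exists_rep (e := (1 : CG S)) (1 : M1 K) ρ1 ρ2 ρ3 hR1 hP1 hQ1 hRP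
    hRQ hPQ
  obtain ⟨g, g1, gR, gP, gQ⟩ := exists_rep (e := (1 : CG S)) (1 : ℕ) p p' (p * p') hR1 hP1 hQ1
    hRP hRQ hPQ
  -- the squares
  have sR : ∀ x : CG S, x * x ≠ R := by
    intro x
    rw [← c1]
    rcases h1 with h | h
    · exact nsqM hb hS hτ ha hp' hp2' hpa' (by rw [← n1] at h; exact h) x
    · exact nsqM hb hS hτ ha hq hq2 hqa (by rw [← n1] at h; exact h) x
  have sP : ∀ x : CG S, x * x ≠ P := by
    intro x
    rw [← c2]
    rcases h2 with h | h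
    · exact nsqM hb hS hτ ha hp hp2 hpa (by rw [← n2] at h; exact h) x
    · exact nsqM hb hS hτ ha hq hq2 hqa (by rw [← n2] at h; exact h) x
  have sQ : ∀ x : CG S, x * x ≠ Q := by
    intro x
    rw [hQ]
    rcases h3 with h | h
    · exact nsqG hb hS hτ hp (Or.inl hp8) hpa (by rw [n3]; exact h) x
    · exact nsqG hb hS hτ hp' (Or.inl hp8') hpa' (by rw [n3]; exact h) x
  obtain ⟨k1, k2, k3⟩ := four_card hG hR1 hP1 hQ1 hRP hRQ hPQ
  have k4 := k3 sR sP sQ
  rw [Nat.card_eq_fintype_card] at k1 k2 k4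
  -- the prime `p`
  obtain ⟨u, u1, -, u3⟩ := Y6.dat6 hb hS hτ ha hU hnc hTT hT hp hp2 hpa
  have su := u1 q hqa (by omega) hpq
  obtain ⟨-, r, m, hr, hm, hrP, hrS⟩ := u3 (fun g => nsqM hb hS hτ ha hq hq2 hqa su g)
  have hpar := par6 hb hS hτ ha hU hι hpos hTT (D := {1, R, P, Q}) (fun x => by
      rw [hG x, Finset.mem_insert, Finset.mem_insert, Finset.mem_insert, Finset.mem_singleton])
    (ρ := f) (δ := g) (fun x hx => by
      rw [Finset.mem_insert, Finset.mem_insert, Finset.mem_insert, Finset.mem_singleton] at hx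
      rcases hx with rfl | rfl | rfl | rfl
      · rw [f1, map_one]
      · rw [fR, c1]
      · rw [fP, c2]
      · rw [fQ, c3]) (fun x hx => by
      rw [Finset.mem_insert, Finset.mem_insert, Finset.mem_insert, Finset.mem_singleton] at hx
      rcases hx with rfl | rfl | rfl | rfl
      · rw [f1, g1]
        exact ⟨r6_one'.symm, one_dvd _, rfl⟩
      · rw [fR, gR]
        exact ⟨rfl, hpa, hp8⟩
      · rw [fP, gP]
        exact ⟨rfl, hpa', hp8'⟩
      · rw [fQ, gQ]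
        exact ⟨rfl, hppa, hpp8⟩) (j := p * p') (by omega) (by
      rw [prod_four f hR1 hP1 hQ1 hRP hRQ hPQ, f1, fR, fP, fQ, one_mul]
      show r6 S p * (r6 S p' * r6 S (p * p')) = _
      rw [← mul_assoc, ← r6_mul hb hS hppa, r6_sq hb hS hppa]) k1 (k2 _) hr hm hrP hrS
  exact (Nat.not_even_iff_odd.2 k4) (hpar.1 (Or.inl hpp8))

/-- `2 p q r` is a congruent number for primes `p = q = r = 3 (mod 8)`, if `q` and `r` are nonresidues modulo `p`. -/
theorem main_333 {p q r : ℕ} (hp : p.Prime) (hq : q.Prime) (hr : r.Prime) (hp8 : p % 8 = 3)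
    (hq8 : q % 8 = 3) (hr8 : r % 8 = 3) (hqr : q ≠ r) (h1 : jacobiSym q p = -1)
    (h2 : jacobiSym r p = -1) : IsCongruent (2 * p * q * r) := by
  by_contra hnc
  have hp2 : p ≠ 2 := by omega
  have hq2 : q ≠ 2 := by omega
  have hr2 : r ≠ 2 := by omega
  have hpq : p ≠ q := by
    rintro rfl
    have h3 : NeZero p := ⟨hp.ne_zero⟩
    have h4 : jacobiSym p p = 0 := by
      rw [jacobiSym.eq_zero_iff_not_coprime, Int.gcd_natCast_natCast, Nat.gcd_self]
      exact hp.one_lt.ne'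
    rw [h4] at h1
    norm_num at h1
  have hpr : p ≠ r := by
    rintro rfl
    have h3 : NeZero p := ⟨hp.ne_zero⟩
    have h4 : jacobiSym p p = 0 := by
      rw [jacobiSym.eq_zero_iff_not_coprime, Int.gcd_natCast_natCast, Nat.gcd_self]
      exact hp.one_lt.ne'
    rw [h4] at h2
    norm_num at h2
  have hsf := sqf hp hq hr hp2 hq2 hr2 hpq hpr hqr
  have e1 : (p * q) % 8 = 1 := by rw [Nat.mul_mod, hp8, hq8]
  have e2 : (p * r) % 8 = 1 := by rw [Nat.mul_mod, hp8, hr8]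
  have e3 : (q * r) % 8 = 1 := by rw [Nat.mul_mod, hq8, hr8]
  have e4 : (p * q * r) % 8 = 3 := by rw [Nat.mul_mod, e1, hr8]
  have ha : (2 * p * q * r) % 16 = 6 := by
    have e5 : 2 * p * q * r = 2 * (p * q * r) := by ring
    omega
  have hpa : p ∣ 2 * p * q * r := ⟨2 * q * r, by ring⟩
  have hqa : q ∣ 2 * p * q * r := ⟨2 * p * r, by ring⟩
  have hra : r ∣ 2 * p * q * r := dvd_mul_left _ _
  have hpqa : p * q ∣ 2 * p * q * r := ⟨2 * r, by ring⟩
  have hpra : p * r ∣ 2 * p * q * r := ⟨2 * q, by ring⟩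
  have hqra : q * r ∣ 2 * p * q * r := ⟨2 * p, by ring⟩
  have dpq : ¬ p ∣ q := fun h => hpq ((Nat.prime_dvd_prime_iff_eq hp hq).1 h)
  have dqp : ¬ q ∣ p := fun h => hpq ((Nat.prime_dvd_prime_iff_eq hq hp).1 h).symm
  have dpr : ¬ p ∣ r := fun h => hpr ((Nat.prime_dvd_prime_iff_eq hp hr).1 h)
  have dpqr : ¬ p ∣ q * r := fun h => by
    rcases (Nat.Prime.dvd_mul hp).1 h with h3 | h3
    · exact dpq h3
    · exact dpr h3
  obtain ⟨K, _, _, s, hb⟩ := exists_base6 hsf (a := 2 * p * q * r) (by omega)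
  obtain ⟨S, hS, -, -⟩ := exists_S6 hb
  obtain ⟨τ, hτ⟩ := exists_tau6 hb hS
  obtain ⟨F, _, _, _, _, _, _, ζ, w, z, k, v, κ, ι, hU, hι, hpos⟩ := exists_ur6 hb hS hτ
  obtain ⟨T, hTT, hT⟩ := tq_px hb hS hU
  have : Fintype (CG S) := Fintype.ofFinite _
  obtain ⟨P, Q, R, hP, hQ, hR, hP1, hQ1, hR1, hPQ, hPR, hQR, hPP, hQQ, hRR, mPQ, mPR, mQR, hG⟩ :=
    exists_grpG hp hq hr hp2 hq2 hr2 (Or.inl hr8) hb hS hτ
  have n1 := norm_r6 hb hS hpqa
  have n2 := norm_r6 hb hS hpra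
  have n3 := norm_r6 hb hS hqra
  set ρ1 : M1 K := ⟨r6 S (q * r), by
    show Ideal.absNorm (r6 S (q * r)) % 8 = 1; rw [n3]; exact e3⟩ with hρ1
  set ρ2 : M1 K := ⟨r6 S (p * r), by
    show Ideal.absNorm (r6 S (p * r)) % 8 = 1; rw [n2]; exact e2⟩ with hρ2
  set ρ3 : M1 K := ⟨r6 S (p * q), by
    show Ideal.absNorm (r6 S (p * q)) % 8 = 1; rw [n1]; exact e1⟩ with hρ3
  have c1 : clN S ρ1 = P := by
    rw [← mQR, hQ, hR]
    exact mk_r6_mul hb hS hqra
  have c2 : clN S ρ2 = Q := by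
    rw [← mPR, hP, hR]
    exact mk_r6_mul hb hS hpra
  have c3 : clN S ρ3 = R := by
    rw [← mPQ, hP, hQ]
    exact mk_r6_mul hb hS hpqa
  obtain ⟨f, f1, fP, fQ, fR⟩ := exists_rep (e := (1 : CG S)) (1 : M1 K) ρ1 ρ2 ρ3 hP1 hQ1 hR1 hPQ
    hPR hQR
  obtain ⟨g, g1, gP, gQ, gR⟩ := exists_rep (e := (1 : CG S)) (1 : ℕ) (q * r) (p * r) (p * q) hP1
    hQ1 hR1 hPQ hPR hQR
  obtain ⟨k1, k2, -⟩ := four_card hG hP1 hQ1 hR1 hPQ hPR hQR
  rw [Nat.card_eq_fintype_card] at k1 k2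
  -- the prime `q`
  obtain ⟨u, u1, -, u3⟩ := Y6.dat6 hb hS hτ ha hU hnc hTT hT hq hq2 hqa
  have su := u1 p hpa (by omega) dqp
  obtain ⟨-, t, m, ht, hm, htP, htS⟩ := u3 (fun g => nsqM hb hS hτ ha hp hp2 hpa su g)
  have hpar := par6 hb hS hτ ha hU hι hpos hTT (D := {1, P, Q, R}) (fun x => by
      rw [hG x, Finset.mem_insert, Finset.mem_insert, Finset.mem_insert, Finset.mem_singleton])
    (ρ := f) (δ := g) (fun x hx => by
      rw [Finset.mem_insert, Finset.mem_insert, Finset.mem_insert, Finset.mem_singleton] at hx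
      rcases hx with rfl | rfl | rfl | rfl
      · rw [f1, map_one]
      · rw [fP, c1]
      · rw [fQ, c2]
      · rw [fR, c3]) (fun x hx => by
      rw [Finset.mem_insert, Finset.mem_insert, Finset.mem_insert, Finset.mem_singleton] at hx
      rcases hx with rfl | rfl | rfl | rfl
      · rw [f1, g1]
        exact ⟨r6_one'.symm, one_dvd _, rfl⟩
      · rw [fP, gP]
        exact ⟨rfl, hqra, e3⟩
      · rw [fQ, gQ]
        exact ⟨rfl, hpra, e2⟩
      · rw [fR, gR]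
        exact ⟨rfl, hpqa, e1⟩) (j := p * q * r) (by omega) (by
      rw [prod_four f hP1 hQ1 hR1 hPQ hPR hQR, f1, fP, fQ, fR, one_mul]
      show r6 S (q * r) * (r6 S (p * r) * r6 S (p * q)) = _
      have e5 : r6 S (q * r) * (r6 S (p * r) * r6 S (p * q)) =
          (r6 S p * r6 S p) * (r6 S q * r6 S q) * (r6 S r * r6 S r) := by
        rw [r6_mul hb hS hqra, r6_mul hb hS hpra, r6_mul hb hS hpqa]
        ring
      rw [e5, r6_sq hb hS hpa, r6_sq hb hS hqa, r6_sq hb hS hra, Ideal.span_singleton_mul_span_singleton,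
        Ideal.span_singleton_mul_span_singleton]
      push_cast
      rfl) k1 (k2 _) ht hm htP htS
  have hodd : Odd (Fintype.card (CG S) / 4) := by
    rw [← Nat.not_even_iff_odd, ← hpar, e4]
    norm_num
  obtain ⟨n, hn⟩ : ∃ n, Fintype.card (CG S) / 4 = n := ⟨_, rfl⟩
  have k5 := k2 (clN S u)
  rw [hn] at hodd k5
  -- the symbol of the power
  have hun : jacobiSym (Ideal.absNorm ((u ^ n : M1 K) : Ideal (𝓞 K))) p = -1 := by
    rw [SubmonoidClass.coe_pow, map_pow, Nat.cast_pow, jacobiSym.pow_left, su, hodd.neg_one_pow]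
  have hcop : ¬ p ∣ Ideal.absNorm ((u ^ n : M1 K) : Ideal (𝓞 K)) := by
    intro h
    have h3 : NeZero p := ⟨hp.ne_zero⟩
    have h4 : jacobiSym (Ideal.absNorm ((u ^ n : M1 K) : Ideal (𝓞 K))) p = 0 := by
      rw [jacobiSym.eq_zero_iff_not_coprime, Int.gcd_natCast_natCast, Nat.gcd_eq_right h]
      exact hp.one_lt.ne'
    rw [h4] at hun
    norm_num at hun
  have h2p : jacobiSym 2 p = -1 := by
    rw [jacobiSym.at_two (Nat.odd_iff.2 (by omega)), ZMod.χ₈_nat_eq_if_mod_eight,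
      if_neg (by omega), if_neg (by omega)]
  have key : ∀ d : ℕ, d ∣ 2 * p * q * r → d % 2 = 1 → ¬ p ∣ d →
      clN S (u ^ n) = QuotientGroup.mk (cls (r6 S d)) →
      (if d % 8 = 1 ∨ d % 8 = 7 then jacobiSym d p else jacobiSym (2 * d) p) = -1 := by
    intro d hd hd2 hpd h
    rw [← chi_r6 hb hS hτ ha hp hp2 hpa hd hd2 hpd hcop h, hun]
  rw [← pow_add, ← two_mul, mul_comm, pow_mul, pow_two] at k5
  rw [← map_pow] at k5
  rcases (hG _).1 k5 with h | h | h | h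
  · have h3 := key 1 (one_dvd _) rfl (fun h => hp.one_lt.ne' (Nat.dvd_one.1 h)) (by
      rw [h, r6_one']
      rw [cls_one]
      rfl)
    rw [if_pos (Or.inl rfl), Nat.cast_one, jacobiSym.one_left] at h3
    norm_num at h3
  · have h3 := key (q * r) hqra (by omega) dpqr (by rw [h, ← c1]; rfl)
    rw [if_pos (Or.inl e3), Nat.cast_mul, jacobiSym.mul_left, h1, h2] at h3
    norm_num at h3
  · have h3 := key q hqa (by omega) dpq (by rw [h, hQ])
    rw [if_neg (by omega), jacobiSym.mul_left, h1, h2p] at h3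
    norm_num at h3
  · have h3 := key r hra (by omega) dpr (by rw [h, hR])
    rw [if_neg (by omega), jacobiSym.mul_left, h2, h2p] at h3
    norm_num at h3

end Pool.Agent.Work.MP_8efaaa_nt.R3
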