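import Mathlib
import Pool.Agent.Work.MP_8efaaa_nt.V6.Defs
import Pool.Agent.Work.MP_8efaaa_nt.V6.GNu
import Pool.Agent.Work.MP_8efaaa_nt.V6.GSu
import Pool.Agent.Work.MP_8efaaa_nt.W14.CCh
import Pool.Agent.Work.MP_8efaaa_nt.K6.ARg
import Pool.Agent.Work.MP_8efaaa_nt.K6.ARm

/-!
# R3/Sq: symbols and squares in `CG S`
-/

set_option autoImplicit false

namespace Pool.Agent.Work.MP_8efaaa_nt.R3

open NumberField Pool.Agent.Work.MP_8efaaa_nt.R Pool.Agent.Work.MP_8efaaa_nt.N5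
  Pool.Agent.Work.MP_8efaaa_nt.K6 Pool.Agent.Work.MP_8efaaa_nt.W14 Pool.Agent.Work.MP_8efaaa_nt.V6
open scoped Classical nonZeroDivisors

variable {K : Type*} [Field K] [NumberField K] {a : ℕ} {s : K} {S : 𝓞 K} {τ : 𝓞 K ≃+* 𝓞 K}

private theorem nsq_ne {p : ℕ} (hp : p.Prime) {n : ℕ} (h : jacobiSym n p ≠ 0) : ¬ p ∣ n := by
  intro h1
  apply h
  haveI : NeZero p := ⟨hp.ne_zero⟩
  rw [jacobiSym.eq_zero_iff_not_coprime]
  rw [Int.gcd_natCast_natCast, Nat.gcd_eq_right h1]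
  exact hp.one_lt.ne'

private theorem nsq_two {q : ℕ} (hq8 : q % 8 = 1 ∨ q % 8 = 7) : jacobiSym 2 q = 1 := by
  rw [jacobiSym.at_two (Nat.odd_iff.2 (by omega)), ZMod.χ₈_nat_eq_if_mod_eight,
    if_neg (by omega), if_pos hq8]

private theorem nsq_cases (hb : B6 K a s) (hS : algebraMap (𝓞 K) K S = s)
    {B C : ClassGroup (𝓞 K)} (h : (QuotientGroup.mk C : CG S) = QuotientGroup.mk B) :
    B = C ∨ B = cls (r6 S 2) * C := by
  have ht : cls (r6 S 2) * cls (r6 S 2) = 1 := (cls_two hb hS).1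
  rw [QuotientGroup.eq] at h
  obtain ⟨k, hk⟩ := Subgroup.mem_zpowers_iff.1 h
  have hcb : B = C * cls (r6 S 2) ^ k := by
    rw [hk, mul_inv_cancel_left]
  rcases Int.even_or_odd' k with ⟨j, rfl | rfl⟩
  · left
    rw [hcb, zpow_mul, zpow_two, ht, one_zpow, mul_one]
  · right
    rw [hcb, zpow_add, zpow_mul, zpow_two, ht, one_zpow, one_mul, zpow_one, mul_comm]

theorem nsqG (hb : B6 K a s) (hS : algebraMap (𝓞 K) K S = s) (hτ : τ S = -S) {l : ℕ}
    (hl : l.Prime) (hl8 : l % 8 = 1 ∨ l % 8 = 7) (hla : l ∣ a) {b : Ideal (𝓞 K)}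
    (h : jacobiSym (Ideal.absNorm b) l = -1) (g : CG S) :
    g * g ≠ QuotientGroup.mk (cls b) := by
  intro hg
  obtain ⟨C, rfl⟩ := QuotientGroup.mk_surjective g
  have h1 : (QuotientGroup.mk (C * C) : CG S) = QuotientGroup.mk (cls b) := hg
  have hn : ¬ l ∣ Ideal.absNorm b := nsq_ne hl (by rw [h]; norm_num)
  have hb0 : b ≠ 0 := by
    rintro rfl
    apply hn
    rw [map_zero]
    exact dvd_zero l
  rcases nsq_cases hb hS h1 with h2 | h2
  · have h3 := (chi_sq1 hb hS hτ hl (by omega) hla hb0 hn).1 h2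
    rw [h] at h3
    norm_num at h3
  · have h3 := (chi_sq1 hb hS hτ hl (by omega) hla hb0 hn).2 h2
    rw [h, nsq_two hl8] at h3
    norm_num at h3

theorem nsqM (hb : B6 K a s) (hS : algebraMap (𝓞 K) K S = s) (hτ : τ S = -S)
    (ha : a % 16 = 6) {l : ℕ} (hl : l.Prime) (hl2 : l ≠ 2) (hla : l ∣ a) {b : M1 K}
    (h : jacobiSym (Ideal.absNorm (b : Ideal (𝓞 K))) l = -1) (g : CG S) :
    g * g ≠ clN S b := by
  intro hg
  obtain ⟨c, rfl⟩ := clN_surj hb hS ha g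
  rw [← map_mul] at hg
  have h1 := clN_eq hb hS hτ ha hg
  rw [Submonoid.coe_mul, cls_mul (M1.ne c.2) (M1.ne c.2)] at h1
  have hn : ¬ l ∣ Ideal.absNorm (b : Ideal (𝓞 K)) := nsq_ne hl (by rw [h]; norm_num)
  have h3 := (chi_sq1 hb hS hτ hl hl2 hla (M1.ne b.2) hn).1 h1.symm
  rw [h] at h3
  norm_num at h3

/-- the symbol of a class of order two -/
theorem chi_r6 (hb : B6 K a s) (hS : algebraMap (𝓞 K) K S = s) (hτ : τ S = -S)
    (ha : a % 16 = 6) {l : ℕ} (hl : l.Prime) (hl2 : l ≠ 2) (hla : l ∣ a) {c : M1 K} {d : ℕ}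
    (hda : d ∣ a) (hd2 : d % 2 = 1) (hld : ¬ l ∣ d)
    (hlc : ¬ l ∣ Ideal.absNorm (c : Ideal (𝓞 K)))
    (h : clN S c = QuotientGroup.mk (cls (r6 S d))) :
    jacobiSym (Ideal.absNorm (c : Ideal (𝓞 K))) l =
      if d % 8 = 1 ∨ d % 8 = 7 then jacobiSym d l else jacobiSym (2 * d) l := by
  have hd0 := r6_ne hb hS hda
  have hc0 := M1.ne c.2
  have h20 := r6_ne hb hS (d := 2) (by omega)
  obtain ⟨ht, -⟩ := cls_two hb hS
  have hr : cls (r6 S d) * cls (r6 S d) = 1 := by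
    rw [← cls_mul hd0 hd0, r6_sq hb hS hda]
    apply cls_span
    have h1 : d ≠ 0 := by omega
    exact_mod_cast h1
  have hcn : Ideal.absNorm (c : Ideal (𝓞 K)) % 8 = 1 := M1.nrm c.2
  have hlZ : Prime (l : ℤ) := Nat.prime_iff_prime_int.1 hl
  have hlo : Odd l := hl.odd_of_ne_two hl2
  have hlne : NeZero l := ⟨hl.ne_zero⟩
  -- the final step: a number `n` with `n = x ^ 2 (mod l)`
  have fin : ∀ (n e : ℕ) (x y : ℤ), (n : ℤ) * e = x ^ 2 + a * y ^ 2 → ¬ l ∣ n → ¬ l ∣ e →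
      jacobiSym n l = jacobiSym e l := by
    intro n e x y h1 hn he
    have h2 : jacobiSym ((n : ℤ) * e) l = jacobiSym (x ^ 2) l := by
      apply jacobiSym.mod_left'
      obtain ⟨k, hk⟩ := hla
      rw [h1, hk]
      push_cast
      rw [show x ^ 2 + (l : ℤ) * k * y ^ 2 = x ^ 2 + l * (k * y ^ 2) by ring]
      exact Int.add_mul_emod_self_left _ _ _
    have hx : jacobiSym (x ^ 2) l = 1 := by
      rw [pow_two, jacobiSym.mul_left]
      have h3 : jacobiSym x l ≠ 0 := by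
        intro h4
        rw [pow_two, jacobiSym.mul_left x, h4, mul_zero, jacobiSym.mul_left] at h2
        rcases mul_eq_zero.1 h2 with h5 | h5
        · rw [jacobiSym.eq_zero_iff_not_coprime, Int.gcd_natCast_natCast] at h5
          exact h5 (Nat.coprime_comm.1 ((Nat.Prime.coprime_iff_not_dvd hl).2 hn))
        · rw [jacobiSym.eq_zero_iff_not_coprime, Int.gcd_natCast_natCast] at h5
          exact h5 (Nat.coprime_comm.1 ((Nat.Prime.coprime_iff_not_dvd hl).2 he))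
      rcases jacobiSym.trichotomy x l with h5 | h5 | h5
      · exact absurd h5 h3
      · rw [h5]; norm_num
      · rw [h5]; norm_num
    rw [hx, jacobiSym.mul_left] at h2
    rcases jacobiSym.trichotomy (n : ℤ) l with h5 | h5 | h5 <;>
      rcases jacobiSym.trichotomy (e : ℤ) l with h6 | h6 | h6 <;> rw [h5, h6] at h2 <;>
        first
        | (rw [h5, h6]; done)
        | (norm_num at h2; done)
        | (rw [h5, h6])
  rcases nsq_cases hb hS (show (QuotientGroup.mk (cls (r6 S d)) : CG S) =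
    QuotientGroup.mk (cls (c : Ideal (𝓞 K))) from h.symm) with h2 | h2
  · -- same class
    have h3 : cls ((c : Ideal (𝓞 K)) * r6 S d) = 1 := by
      rw [cls_mul hc0 hd0, h2, hr]
    obtain ⟨γ, hγ⟩ := prin_of_cls (mul_ne_zero hc0 hd0) h3
    obtain ⟨x, y, hxy⟩ := coords6 hb γ
    have h4 := norm_lin6 hb hxy
    rw [← hγ.2, map_mul, norm_r6 hb hS hda] at h4
    push_cast at h4
    have hd8 : d % 8 = 1 ∨ d % 8 = 7 := by
      have h5 : ((Ideal.absNorm (c : Ideal (𝓞 K)) : ℤ) * d) % 8 = (x ^ 2 + a * y ^ 2) % 8 := by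
        rw [h4]
      have h6 : (Ideal.absNorm (c : Ideal (𝓞 K)) : ℤ) % 8 = 1 := by exact_mod_cast hcn
      have h7 : (a : ℤ) % 8 = 6 := by omega
      have h8 : (d : ℤ) % 2 = 1 := by omega
      rw [Int.mul_emod, h6, one_mul, Int.emod_emod_of_dvd _ (dvd_refl 8), Int.add_emod,
        Int.mul_emod, h7] at h5
      have h9 : x ^ 2 % 8 = 0 ∨ x ^ 2 % 8 = 1 ∨ x ^ 2 % 8 = 4 := by
        have : x % 8 = 0 ∨ x % 8 = 1 ∨ x % 8 = 2 ∨ x % 8 = 3 ∨ x % 8 = 4 ∨ x % 8 = 5 ∨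
          x % 8 = 6 ∨ x % 8 = 7 := by omega
        rcases this with h | h | h | h | h | h | h | h <;> rw [pow_two, Int.mul_emod, h] <;> decide
      have h10 : y ^ 2 % 8 = 0 ∨ y ^ 2 % 8 = 1 ∨ y ^ 2 % 8 = 4 := by
        have : y % 8 = 0 ∨ y % 8 = 1 ∨ y % 8 = 2 ∨ y % 8 = 3 ∨ y % 8 = 4 ∨ y % 8 = 5 ∨
          y % 8 = 6 ∨ y % 8 = 7 := by omega
        rcases this with h | h | h | h | h | h | h | h <;> rw [pow_two, Int.mul_emod, h] <;> decide
      rcases h9 with h9 | h9 | h9 <;> rcases h10 with h10 | h10 | h10 <;>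
        rw [h9, h10] at h5 <;> norm_num at h5 <;> omega
    rw [if_pos hd8]
    exact fin _ _ x y h4 hlc hld
  · -- the other class
    have h3 : cls (r6 S 2 * (c : Ideal (𝓞 K)) * r6 S d) = 1 := by
      rw [cls_mul (mul_ne_zero h20 hc0) hd0, cls_mul h20 hc0, h2, ← mul_assoc, ht, one_mul, hr]
    obtain ⟨γ, hγ⟩ := prin_of_cls (mul_ne_zero (mul_ne_zero h20 hc0) hd0) h3
    obtain ⟨x, y, hxy⟩ := coords6 hb γ
    have h4 := norm_lin6 hb hxy
    rw [← hγ.2, map_mul, map_mul, norm_r6 hb hS hda, norm_r6 hb hS (by omega)] at h4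
    push_cast at h4
    have hd8 : d % 8 = 3 ∨ d % 8 = 5 := by
      obtain ⟨a', ha'⟩ : ∃ a' : ℤ, (a : ℤ) = 2 * a' := ⟨a / 2, by omega⟩
      obtain ⟨x', hx'⟩ : ∃ x' : ℤ, x = 2 * x' := by
        have h5 : (2 : ℤ) ∣ x ^ 2 := by
          rw [ha'] at h4
          exact ⟨(Ideal.absNorm (c : Ideal (𝓞 K)) : ℤ) * d - a' * y ^ 2, by linear_combination -h4⟩
        exact Prime.dvd_of_dvd_pow Int.prime_two h5
      have h5 : (Ideal.absNorm (c : Ideal (𝓞 K)) : ℤ) * d = 2 * x' ^ 2 + a' * y ^ 2 := by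
        rw [ha', hx'] at h4
        have h6 : (2 : ℤ) * ((Ideal.absNorm (c : Ideal (𝓞 K)) : ℤ) * d) =
          2 * (2 * x' ^ 2 + a' * y ^ 2) := by linear_combination h4
        exact mul_left_cancel₀ (by norm_num) h6
      have h5 : ((Ideal.absNorm (c : Ideal (𝓞 K)) : ℤ) * d) % 8 = (2 * x' ^ 2 + a' * y ^ 2) % 8 := by
        rw [h5]
      have h6 : (Ideal.absNorm (c : Ideal (𝓞 K)) : ℤ) % 8 = 1 := by exact_mod_cast hcn
      have h7 : a' % 8 = 3 := by omega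
      have h8 : (d : ℤ) % 2 = 1 := by omega
      rw [Int.mul_emod, h6, one_mul, Int.emod_emod_of_dvd _ (dvd_refl 8), Int.add_emod,
        Int.mul_emod a', h7, Int.mul_emod 2] at h5
      have h9 : x' ^ 2 % 8 = 0 ∨ x' ^ 2 % 8 = 1 ∨ x' ^ 2 % 8 = 4 := by
        have : x' % 8 = 0 ∨ x' % 8 = 1 ∨ x' % 8 = 2 ∨ x' % 8 = 3 ∨ x' % 8 = 4 ∨ x' % 8 = 5 ∨
          x' % 8 = 6 ∨ x' % 8 = 7 := by omega
        rcases this with h | h | h | h | h | h | h | h <;> rw [pow_two, Int.mul_emod, h] <;> decide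
      have h10 : y ^ 2 % 8 = 0 ∨ y ^ 2 % 8 = 1 ∨ y ^ 2 % 8 = 4 := by
        have : y % 8 = 0 ∨ y % 8 = 1 ∨ y % 8 = 2 ∨ y % 8 = 3 ∨ y % 8 = 4 ∨ y % 8 = 5 ∨
          y % 8 = 6 ∨ y % 8 = 7 := by omega
        rcases this with h | h | h | h | h | h | h | h <;> rw [pow_two, Int.mul_emod, h] <;> decide
      rcases h9 with h9 | h9 | h9 <;> rcases h10 with h10 | h10 | h10 <;>
        rw [h9, h10] at h5 <;> norm_num at h5 <;> omega
    rw [if_neg (by omega)]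
    have h5 := fin (Ideal.absNorm (c : Ideal (𝓞 K))) (2 * d) x y
      (by push_cast; linear_combination h4) hlc (by
        intro h6
        rcases (Nat.Prime.dvd_mul hl).1 h6 with h7 | h7
        · exact hl2 ((Nat.prime_dvd_prime_iff_eq hl Nat.prime_two).1 h7)
        · exact hld h7)
    rw [h5]
    push_cast
    rfl

end Pool.Agent.Work.MP_8efaaa_nt.R3
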